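import Mathlib

namespace Pool.Agent.Results.MP_08245e_co.JohnsonMate

open Finset Matrix

/-- The distance matrix of a graph: the `(x, y)` entry is the graph distance `d(x, y)`. -/
noncomputable def distMatrix {V : Type*} (G : SimpleGraph V) : Matrix V V ℝ :=
  fun x y => (G.dist x y : ℝ)

theorem distMatrix_isHermitian {V : Type*} (G : SimpleGraph V) : (distMatrix G).IsHermitian := by
  ext x y
  simp [distMatrix, G.dist_comm]

/-- The distance spectrum: the multiset of the eigenvalues of the (real symmetric) distance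
matrix, counted with multiplicity. -/
noncomputable def distSpectrum {V : Type*} [Fintype V] [DecidableEq V] (G : SimpleGraph V) :
    Multiset ℝ :=
  Finset.univ.val.map (distMatrix_isHermitian G).eigenvalues

/-- `G` is connected and for all `x, y` the number of neighbours of `y` at distance
`d(x, y) - 1`, resp. `d(x, y) + 1`, from `x` depends only on `d(x, y)`. -/
structure IsDistanceRegular {V : Type*} (G : SimpleGraph V) : Prop where
  connected : G.Connected
  regular : ∃ b c : ℕ → ℕ, ∀ x y : V,
    {z | G.Adj y z ∧ G.dist x z + 1 = G.dist x y}.ncard = c (G.dist x y) ∧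
    {z | G.Adj y z ∧ G.dist x z = G.dist x y + 1}.ncard = b (G.dist x y)

/-- The Johnson graph `J(n, k)`: vertices are the `k`-subsets of an `n`-set, two of them being
adjacent when they meet in `k - 1` points. -/
def johnson (n k : ℕ) : SimpleGraph {s : Finset (Fin n) // s.card = k} where
  Adj s t := (s.1 ∩ t.1).card + 1 = k
  symm := ⟨fun s t h => by rwa [Finset.inter_comm]⟩
  loopless := ⟨fun s h => by
    rw [Finset.inter_self, s.2] at h
    omega⟩

/-! ### General facts -/

theorem dist_of {V : Type*} (G : SimpleGraph V) (d : V → V → ℕ)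
    (h0 : ∀ x y, d x y = 0 → x = y) (h00 : ∀ x, d x x = 0)
    (h1 : ∀ x z y, G.Adj x z → d x y ≤ d z y + 1)
    (h2 : ∀ x y, x ≠ y → ∃ z, G.Adj x z ∧ d z y + 1 = d x y) (x y : V) :
    G.Reachable x y ∧ G.dist x y = d x y := by
  have key : ∀ n x y, d x y = n → ∃ p : G.Walk x y, p.length = n := by
    intro n
    induction n with
    | zero =>
      intro x y h
      obtain rfl := h0 x y h
      exact ⟨.nil, rfl⟩
    | succ n ih =>
      intro x y h
      have hne : x ≠ y := by
        rintro rfl
        rw [h00] at h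
        omega
      obtain ⟨z, hz, hd⟩ := h2 x y hne
      obtain ⟨p, hp⟩ := ih z y (by omega)
      exact ⟨.cons hz p, by simp [hp]⟩
  have low : ∀ x y (p : G.Walk x y), d x y ≤ p.length := by
    intro x y p
    induction p with
    | nil => simp [h00]
    | cons h p ih =>
      rw [SimpleGraph.Walk.length_cons]
      exact (h1 _ _ _ h).trans (by omega)
  obtain ⟨p, hp⟩ := key _ x y rfl
  refine ⟨⟨p⟩, le_antisymm (hp ▸ G.dist_le p) ?_⟩
  obtain ⟨q, hq⟩ := (show G.Reachable x y from ⟨p⟩).exists_walk_length_eq_dist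
  rw [← hq]
  exact low _ _ q

theorem distSpectrum_eq {V W : Type*} [Fintype V] [DecidableEq V] [Fintype W] [DecidableEq W]
    (G : SimpleGraph V) (H : SimpleGraph W)
    (h : (distMatrix G).charpoly = (distMatrix H).charpoly) :
    distSpectrum G = distSpectrum H := by
  have h1 := (distMatrix_isHermitian G).roots_charpoly_eq_eigenvalues
  have h2 := (distMatrix_isHermitian H).roots_charpoly_eq_eigenvalues
  rw [h, h2] at h1
  unfold distSpectrum
  exact h1.symm

theorem charpoly_factor {V n : Type*} [Fintype V] [DecidableEq V] [Fintype n] [DecidableEq n]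
    (B : Matrix V n ℝ) (C : Matrix n V ℝ) (u w : n → ℝ) (a : ℝ)
    (t : ℝ) (k N : ℕ) (h : C * B = vecMulVec u w - scalar n a) (hu : u ⬝ᵥ w = t)
    (hn : Fintype.card n = k) (hV : Fintype.card V = N) :
    Polynomial.X ^ k * (B * C).charpoly = Polynomial.X ^ N *
      ((Polynomial.X ^ k - t • Polynomial.X ^ (k - 1) : Polynomial ℝ).comp
        (Polynomial.X + Polynomial.C a)) := by
  have := charpoly_mul_comm' B C
  rw [hn, hV, h, charpoly_sub_scalar, charpoly_vecMulVec, hu, hn] at this
  exact this

/-! ### The Johnson graph -/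

section Johnson

variable {n k : ℕ}

theorem sdiff_inter_card (s t : {s : Finset (Fin n) // s.card = k}) :
    (s.1 \ t.1).card + (s.1 ∩ t.1).card = k := by
  rw [Finset.card_sdiff_add_card_inter, s.2]

theorem johnson_adj (s t : {s : Finset (Fin n) // s.card = k}) :
    (johnson n k).Adj s t ↔ (s.1 \ t.1).card = 1 := by
  have := sdiff_inter_card s t
  change (s.1 ∩ t.1).card + 1 = k ↔ _
  omega

theorem sdiff_swap (x y : Finset (Fin n)) (a b : Fin n) (ha : a ∈ y) (hb : b ∉ y) :
    (x \ insert b (y.erase a)).card + (if b ∈ x then 1 else 0) =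
      (x \ y).card + (if a ∈ x then 1 else 0) := by
  have hab : a ≠ b := by
    rintro rfl
    exact hb ha
  have e1 : x \ insert b (y.erase a) = (x \ y.erase a).erase b := by
    ext i
    simp
    tauto
  have e2 : (x \ y.erase a) = if a ∈ x then insert a (x \ y) else x \ y := by
    ext i
    split_ifs with h
    · simp only [mem_sdiff, mem_erase, mem_insert]
      by_cases hi : i = a
      · subst hi
        simp [h]
      · simp [hi]
    · simp only [mem_sdiff, mem_erase]
      by_cases hi : i = a
      · subst hi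
        simp [h]
      · simp [hi]
  have e3 : (x \ y.erase a).card = (x \ y).card + (if a ∈ x then 1 else 0) := by
    rw [e2]
    split_ifs with h
    · rw [card_insert_of_notMem]
      simp [ha]
    · simp
  rw [← e3, e1]
  split_ifs with h
  · have : b ∈ x \ y.erase a := by simp [h, hb]
    exact card_erase_add_one this
  · have : b ∉ x \ y.erase a := by simp [h]
    rw [erase_eq_of_notMem this, add_zero]

theorem card_swap (y : Finset (Fin n)) (a b : Fin n) (ha : a ∈ y) (hb : b ∉ y) :
    (insert b (y.erase a)).card = y.card := by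
  rw [card_insert_of_notMem (by simp [hb]), card_erase_add_one ha]

theorem johnson_dist (x y : {s : Finset (Fin n) // s.card = k}) :
    (johnson n k).Reachable x y ∧ (johnson n k).dist x y = (x.1 \ y.1).card := by
  refine dist_of (johnson n k) (fun x y => (x.1 \ y.1).card) ?_ ?_ ?_ ?_ x y
  · intro x y h
    rw [card_eq_zero, sdiff_eq_empty_iff_subset] at h
    exact Subtype.ext (eq_of_subset_of_card_le h (by rw [x.2, y.2]))
  · intro x
    simp
  · intro x z y h
    rw [johnson_adj] at h
    have : x.1 \ y.1 ⊆ (z.1 \ y.1) ∪ (x.1 \ z.1) := by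
      intro i
      simp only [mem_sdiff, mem_union]
      tauto
    calc (x.1 \ y.1).card ≤ ((z.1 \ y.1) ∪ (x.1 \ z.1)).card := card_le_card this
      _ ≤ _ := card_union_le _ _
      _ = _ := by rw [h]
  · intro x y h
    have h1 : (x.1 \ y.1).Nonempty := by
      rw [nonempty_iff_ne_empty, Ne, sdiff_eq_empty_iff_subset]
      exact fun hs => h (Subtype.ext (eq_of_subset_of_card_le hs (by rw [x.2, y.2])))
    have h2 : (y.1 \ x.1).Nonempty := by
      rw [nonempty_iff_ne_empty, Ne, sdiff_eq_empty_iff_subset]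
      exact fun hs => h (Subtype.ext (eq_of_subset_of_card_le hs (by rw [x.2, y.2]))).symm
    obtain ⟨b, hb⟩ := h1
    obtain ⟨a, ha⟩ := h2
    rw [mem_sdiff] at ha hb
    refine ⟨⟨insert a (x.1.erase b), by rw [card_swap _ _ _ hb.1 ha.2, x.2]⟩, ?_, ?_⟩
    · rw [johnson_adj]
      have := sdiff_swap x.1 x.1 b a hb.1 ha.2
      simp only [ha.2, hb.1, if_true, if_false, sdiff_self] at this
      simpa using this
    · have e : insert a (x.1.erase b) \ y.1 = (x.1 \ y.1).erase b := by
        ext i
        simp only [mem_sdiff, mem_insert, mem_erase]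
        constructor
        · rintro ⟨rfl | h, h'⟩
          · exact absurd ha.1 h'
          · exact ⟨h.1, h.2, h'⟩
        · rintro ⟨h, h', h''⟩
          exact ⟨Or.inr ⟨h, h'⟩, h''⟩
      change (insert a (x.1.erase b) \ y.1).card + 1 = (x.1 \ y.1).card
      rw [e]
      exact card_erase_add_one (by simp [hb])

theorem johnson_count (y : {s : Finset (Fin n) // s.card = k}) (A B : Finset (Fin n))
    (hA : A ⊆ y.1) (hB : ∀ b ∈ B, b ∉ y.1)
    (S : Set {s : Finset (Fin n) // s.card = k})
    (hS : ∀ z : {s : Finset (Fin n) // s.card = k}, z ∈ S ↔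
      ∃ a ∈ A, ∃ b ∈ B, z.1 = insert b (y.1.erase a)) :
    S.ncard = A.card * B.card := by
  rw [← Set.ncard_image_of_injective S Subtype.val_injective]
  have : Subtype.val '' S = ↑((A ×ˢ B).image (fun p => insert p.2 (y.1.erase p.1))) := by
    ext z
    simp only [Set.mem_image, Subtype.exists, exists_and_right, exists_eq_right, coe_image,
      coe_product, Set.mem_prod, mem_coe, Prod.exists]
    constructor
    · rintro ⟨hz, h⟩
      rw [hS] at h
      obtain ⟨a, ha, b, hb, e⟩ := h
      exact ⟨a, b, ⟨ha, hb⟩, e.symm⟩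
    · rintro ⟨a, b, ⟨ha, hb⟩, e⟩
      refine ⟨?_, ?_⟩
      · rw [← e, card_swap _ _ _ (hA ha) (hB b hb), y.2]
      · rw [hS]
        exact ⟨a, ha, b, hb, e.symm⟩
  rw [this, Set.ncard_coe_finset, card_image_of_injOn, card_product]
  rintro ⟨a, b⟩ h ⟨a', b'⟩ h' e
  simp only [coe_product, Set.mem_prod, mem_coe] at h h' e
  have ha := hA h.1
  have ha' := hA h'.1
  have hb := hB b h.2
  have hb' := hB b' h'.2
  have e1 : b = b' := by
    have : b ∈ insert b' (y.1.erase a') := by
      rw [← e]
      exact mem_insert_self _ _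
    rw [mem_insert, mem_erase] at this
    rcases this with h | h
    · exact h
    · exact absurd h.2 hb
  have e2 : a = a' := by
    by_contra hne
    have : a ∈ insert b' (y.1.erase a') := by
      rw [mem_insert, mem_erase]
      exact Or.inr ⟨hne, ha⟩
    rw [← e, mem_insert, mem_erase] at this
    rcases this with h | h
    · exact hb (h ▸ ha)
    · exact h.1 rfl
  rw [e1, e2]

theorem johnson_nbr (y z : {s : Finset (Fin n) // s.card = k}) (h : (johnson n k).Adj y z) :
    ∃ a ∈ y.1, ∃ b, b ∉ y.1 ∧ z.1 = insert b (y.1.erase a) := by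
  have h1 := (johnson_adj y z).1 h
  have h2 := (johnson_adj z y).1 h.symm
  rw [card_eq_one] at h1 h2
  obtain ⟨a, ha⟩ := h1
  obtain ⟨b, hb⟩ := h2
  have ha' : a ∈ y.1 \ z.1 := by simp [ha]
  have hb' : b ∈ z.1 \ y.1 := by simp [hb]
  rw [mem_sdiff] at ha' hb'
  refine ⟨a, ha'.1, b, hb'.2, ?_⟩
  ext i
  rw [mem_insert, mem_erase]
  have k1 : (i ∈ y.1 ∧ i ∉ z.1) ↔ i = a := by
    rw [← mem_sdiff, ha, mem_singleton]
  have k2 : (i ∈ z.1 ∧ i ∉ y.1) ↔ i = b := by
    rw [← mem_sdiff, hb, mem_singleton]
  tauto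

theorem johnson_isDistanceRegular (hk : k ≤ n) : IsDistanceRegular (johnson n k) := by
  constructor
  · have : Nonempty {s : Finset (Fin n) // s.card = k} := by
      obtain ⟨t, -, ht⟩ := exists_subset_card_eq (s := (univ : Finset (Fin n)))
        (n := k) (by simpa using hk)
      exact ⟨⟨t, ht⟩⟩
    exact ⟨fun x y => (johnson_dist x y).1⟩
  · refine ⟨fun i => (k - i) * (n - k - i), fun i => i * i, fun x y => ⟨?_, ?_⟩⟩
    · simp only [(johnson_dist _ _).2]
      have hc : (y.1 \ x.1).card = (x.1 \ y.1).card := by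
        have h1 := sdiff_inter_card x y
        have h2 := sdiff_inter_card y x
        rw [inter_comm] at h2
        omega
      rw [johnson_count y (y.1 \ x.1) (x.1 \ y.1) sdiff_subset
        (fun b hb => (mem_sdiff.1 hb).2) _ ?_, hc]
      intro z
      constructor
      · rintro ⟨hz, hd⟩
        obtain ⟨a, ha, b, hb, e⟩ := johnson_nbr y z hz
        have := sdiff_swap x.1 y.1 a b ha hb
        rw [← e] at this
        have hax : a ∉ x.1 := by
          intro hh
          rw [if_pos hh] at this
          split_ifs at this <;> omega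
        have hbx : b ∈ x.1 := by
          by_contra hh
          rw [if_neg hh, if_neg hax] at this
          omega
        exact ⟨a, mem_sdiff.2 ⟨ha, hax⟩, b, mem_sdiff.2 ⟨hbx, hb⟩, e⟩
      · rintro ⟨a, ha, b, hb, e⟩
        rw [mem_sdiff] at ha hb
        have h1 := sdiff_swap x.1 y.1 a b ha.1 hb.2
        have h2 := sdiff_swap y.1 y.1 a b ha.1 hb.2
        rw [← e] at h1 h2
        rw [if_pos hb.1, if_neg ha.2] at h1
        rw [if_neg hb.2, if_pos ha.1, Finset.sdiff_self, card_empty] at h2
        exact ⟨(johnson_adj y z).2 (by simpa using h2), by simpa using h1⟩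
    · simp only [(johnson_dist _ _).2]
      have h1 := sdiff_inter_card x y
      rw [johnson_count y (x.1 ∩ y.1) (x.1 ∪ y.1)ᶜ inter_subset_right
        (fun b hb => by simp at hb; exact hb.2) _ ?_]
      · have h3 : (x.1 ∪ y.1).card = k + (x.1 \ y.1).card := by
          have h4 := card_sdiff_add_card x.1 y.1
          have h5 := y.2
          omega
        rw [card_compl, h3, Fintype.card_fin]
        congr 1
        · omega
        · omega
      intro z
      constructor
      · rintro ⟨hz, hd⟩
        obtain ⟨a, ha, b, hb, e⟩ := johnson_nbr y z hz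
        have := sdiff_swap x.1 y.1 a b ha hb
        rw [← e] at this
        have hbx : b ∉ x.1 := by
          intro hh
          rw [if_pos hh] at this
          split_ifs at this <;> omega
        have hax : a ∈ x.1 := by
          by_contra hh
          rw [if_neg hh, if_neg hbx] at this
          omega
        exact ⟨a, mem_inter.2 ⟨hax, ha⟩, b, by simp [hbx, hb], e⟩
      · rintro ⟨a, ha, b, hb, e⟩
        rw [mem_inter] at ha
        simp only [mem_compl, mem_union, not_or] at hb
        have h1 := sdiff_swap x.1 y.1 a b ha.2 hb.2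
        have h2 := sdiff_swap y.1 y.1 a b ha.2 hb.2
        rw [← e] at h1 h2
        rw [if_neg hb.1, if_pos ha.1] at h1
        rw [if_neg hb.2, if_pos ha.2, Finset.sdiff_self, card_empty] at h2
        exact ⟨(johnson_adj y z).2 (by simpa using h2), by simpa using h1⟩

end Johnson
section JohnsonSpectrum

theorem count_disj (n k : ℕ) (S : Finset (Fin n)) :
    (univ.filter (fun y : {s : Finset (Fin n) // s.card = k} => Disjoint y.1 S)).card =
      (n - S.card).choose k := by
  rw [← card_map (Function.Embedding.subtype _)]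
  have : (univ.filter (fun y : {s : Finset (Fin n) // s.card = k} => Disjoint y.1 S)).map
      (Function.Embedding.subtype _) = powersetCard k Sᶜ := by
    ext z
    simp only [mem_map, mem_filter, mem_univ, true_and, Function.Embedding.coe_subtype,
      Subtype.exists, exists_and_left, exists_prop, exists_eq_right_right, mem_powersetCard,
      subset_compl_iff_disjoint_right]
  rw [this, card_powersetCard, card_compl, Fintype.card_fin]

theorem card_johnson (n k : ℕ) :
    Fintype.card {s : Finset (Fin n) // s.card = k} = n.choose k := by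
  have := count_disj n k ∅
  simp only [disjoint_empty_right, card_empty, Nat.sub_zero] at this
  rw [← this]
  simp

/-- incidence matrix -/
def JB : Matrix {s : Finset (Fin 16) // s.card = 6} (Fin 16) ℝ :=
  fun x i => if i ∈ x.1 then 1 else 0

/-- complementary incidence matrix -/
def JC : Matrix (Fin 16) {s : Finset (Fin 16) // s.card = 6} ℝ :=
  fun i y => if i ∈ y.1 then 0 else 1

theorem johnson_BC : distMatrix (johnson 16 6) = JB * JC := by
  ext x y
  rw [Matrix.mul_apply]
  simp only [distMatrix, (johnson_dist x y).2, JB, JC]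
  rw [card_eq_sum_ones, Nat.cast_sum, ← sum_filter_add_sum_filter_not univ (fun i => i ∈ x.1 \ y.1)]
  rw [sum_eq_zero (s := filter (fun i => ¬ i ∈ x.1 \ y.1) univ), add_zero]
  · rw [filter_mem_eq_inter, univ_inter]
    apply sum_congr rfl
    intro i hi
    rw [mem_sdiff] at hi
    simp [hi.1, hi.2]
  · intro i hi
    simp only [mem_sdiff, mem_filter, mem_univ, true_and, not_and, not_not] at hi
    by_cases h : i ∈ x.1
    · simp [hi h]
    · simp [h]

theorem johnson_CB : JC * JB =
    vecMulVec (fun _ => (2002 : ℝ)) (fun _ => 1) - scalar (Fin 16) 2002 := by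
  have key : ∀ i j : Fin 16, ∑ y : {s : Finset (Fin 16) // s.card = 6},
      (if i ∈ y.1 then (0 : ℝ) else 1) * (if j ∈ y.1 then 0 else 1) =
      ((16 - ({i, j} : Finset (Fin 16)).card).choose 6 : ℕ) := by
    intro i j
    rw [← count_disj, card_eq_sum_ones, Nat.cast_sum, sum_filter]
    apply sum_congr rfl
    intro y _
    by_cases h1 : i ∈ y.1 <;> by_cases h2 : j ∈ y.1 <;> simp [h1, h2]
  ext i j
  rw [Matrix.mul_apply]
  simp only [JC, JB, Matrix.sub_apply, vecMulVec_apply, scalar_apply, diagonal_apply, mul_one]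
  have e : ∑ y : {s : Finset (Fin 16) // s.card = 6},
      (if i ∈ y.1 then (0 : ℝ) else 1) * (if j ∈ y.1 then 1 else 0) =
      ∑ y : {s : Finset (Fin 16) // s.card = 6},
        (if i ∈ y.1 then (0 : ℝ) else 1) * (if i ∈ y.1 then 0 else 1) -
      ∑ y : {s : Finset (Fin 16) // s.card = 6},
        (if i ∈ y.1 then (0 : ℝ) else 1) * (if j ∈ y.1 then 0 else 1) := by
    rw [← sum_sub_distrib]
    apply sum_congr rfl
    intro y _
    by_cases h1 : i ∈ y.1 <;> by_cases h2 : j ∈ y.1 <;> simp [h1, h2]
  rw [e, key, key]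
  by_cases hij : i = j
  · subst hij
    simp
  · rw [card_pair hij, pair_eq_singleton, card_singleton, if_neg hij]
    have h1 : (16 - 1).choose 6 = 5005 := by decide
    have h2 : (16 - 2).choose 6 = 3003 := by decide
    rw [h1, h2]
    norm_num

theorem johnson_charpoly :
    Polynomial.X ^ 16 * (distMatrix (johnson 16 6)).charpoly = Polynomial.X ^ (Nat.choose 16 6) *
      ((Polynomial.X ^ 16 - (32032 : ℝ) • Polynomial.X ^ (16 - 1) : Polynomial ℝ).comp
        (Polynomial.X + Polynomial.C 2002)) := by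
  rw [johnson_BC]
  refine charpoly_factor JB JC _ _ 2002 32032 16 (Nat.choose 16 6) johnson_CB ?_ ?_ ?_
  · simp [dotProduct]
    norm_num
  · simp
  · exact card_johnson 16 6

end JohnsonSpectrum
/-! ### The mate -/

section Mate

/-- binary expansion as a subset of `Fin 12` -/
def dec (n : ℕ) : Finset (Fin 12) := univ.filter (fun i => n.testBit i.val = true)

/-- first deleted code -/
def T0 : List ℕ := [3, 30, 326, 442, 473, 629, 649, 748, 811, 1011, 1133, 1198, 1200, 1399, 1492,
  1602, 1752, 1823, 1824, 1925, 2117, 2271, 2272, 2328, 2434, 2580, 2743, 2926, 2928, 2989, 3123,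
  3307, 3372, 3401, 3509, 3609, 3706, 3718, 4035, 4062]

/-- second deleted code -/
def T1 : List (Fin 4 × ℕ) := [(0, 0), (0, 325), (0, 1755), (0, 2990), (0, 3510), (0, 3705),
  (1, 441), (1, 630), (1, 1134), (1, 2331), (1, 3717), (1, 4032), (2, 650), (2, 1495), (2, 1820),
  (2, 2275), (2, 2925), (2, 3120), (3, 1008), (3, 1197), (3, 1827), (3, 2268), (3, 2583),
  (3, 3402)]

/-- first deleted code, as sets -/
def T0F : Finset (Finset (Fin 12)) := (T0.map dec).toFinset

/-- second deleted code, as sets -/
def T1F : Finset (Fin 4 × Finset (Fin 12)) := (T1.map (fun p => (p.1, dec p.2))).toFinset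

/-- the vertices of the mate -/
abbrev MV : Type := {p : Fin 4 × Finset (Fin 12) // Even p.2.card ∧ p.2 ∉ T0F ∧ p ∉ T1F}

/-- the distance function of the mate -/
def md (x y : Fin 4 × Finset (Fin 12)) : ℕ :=
  (if x.1 = y.1 then 0 else 1) + (symmDiff x.2 y.2).card / 2

theorem md_comm (x y : Fin 4 × Finset (Fin 12)) : md x y = md y x := by
  unfold md
  rw [symmDiff_comm]
  simp only [eq_comm]

/-- the mate of the Johnson graph `J(16, 6)` -/
def mate : SimpleGraph MV where
  Adj x y := md x.1 y.1 = 1
  symm := ⟨fun x y h => by rwa [md_comm]⟩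
  loopless := ⟨fun x h => by simp [md] at h⟩

theorem card_symm_add {α : Type*} [DecidableEq α] (a b : Finset α) :
    (symmDiff a b).card + 2 * (a ∩ b).card = a.card + b.card := by
  have h1 : symmDiff a b = (a \ b) ∪ (b \ a) := rfl
  have h2 : Disjoint (a \ b) (b \ a) := by
    rw [disjoint_left]
    intro i hi hj
    simp only [mem_sdiff] at hi hj
    exact hi.2 hj.1
  rw [h1, card_union_of_disjoint h2]
  have h3 := card_sdiff_add_card_inter a b
  have h4 := card_sdiff_add_card_inter b a
  rw [inter_comm] at h4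
  omega

theorem even_symm {α : Type*} [DecidableEq α] (a b : Finset α) (ha : Even a.card)
    (hb : Even b.card) : Even (symmDiff a b).card := by
  have := card_symm_add a b
  rw [Nat.even_iff] at *
  omega

theorem hP0 : ∀ a ∈ T0F, ∀ b ∈ T0F, (symmDiff a b).card ≠ 2 := by
  have : ∀ m ∈ T0, ∀ n ∈ T0, (symmDiff (dec m) (dec n)).card ≠ 2 := by decide +kernel
  intro a ha b hb
  unfold T0F at ha hb
  rw [List.mem_toFinset, List.mem_map] at ha hb
  obtain ⟨m, hm, rfl⟩ := ha
  obtain ⟨n, hn, rfl⟩ := hb
  exact this m hm n hn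

theorem hP1 : ∀ a ∈ T1F, ∀ b ∈ T1F, (symmDiff a.2 b.2).card ≠ 2 := by
  have : ∀ m ∈ T1, ∀ n ∈ T1, (symmDiff (dec m.2) (dec n.2)).card ≠ 2 := by decide +kernel
  intro a ha b hb
  unfold T1F at ha hb
  rw [List.mem_toFinset, List.mem_map] at ha hb
  obtain ⟨m, hm, rfl⟩ := ha
  obtain ⟨n, hn, rfl⟩ := hb
  exact this m hm n hn

theorem md_triangle (x y z : MV) : md x.1 y.1 ≤ md x.1 z.1 + md z.1 y.1 := by
  unfold md
  have h1 := even_symm _ _ x.2.1 y.2.1
  have h2 := even_symm _ _ x.2.1 z.2.1
  have h3 := even_symm _ _ z.2.1 y.2.1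
  have h4 : (symmDiff x.1.2 y.1.2).card ≤
      (symmDiff x.1.2 z.1.2).card + (symmDiff z.1.2 y.1.2).card :=
    (card_le_card (symmDiff_triangle x.1.2 z.1.2 y.1.2)).trans (card_union_le _ _)
  have h5 : (if x.1.1 = y.1.1 then 0 else 1) ≤
      (if x.1.1 = z.1.1 then 0 else 1) + (if z.1.1 = y.1.1 then 0 else 1) := by
    by_cases h : x.1.1 = z.1.1
    · rw [h]
      simp
    · simp only [h, if_false]
      split_ifs <;> omega
  obtain ⟨a, ha⟩ := h1
  obtain ⟨b, hb⟩ := h2
  obtain ⟨c, hc⟩ := h3
  rw [ha, hb, hc] at h4 ⊢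
  rw [← two_mul, ← two_mul, ← two_mul, Nat.mul_div_cancel_left _ (by norm_num),
    Nat.mul_div_cancel_left _ (by norm_num), Nat.mul_div_cancel_left _ (by norm_num)]
  omega

theorem step_pair (x y : MV) (P : Finset (Fin 12)) (hP : P.card = 2)
    (hPD : P ⊆ symmDiff x.1.2 y.1.2) (h0 : symmDiff x.1.2 P ∉ T0F)
    (h1 : (x.1.1, symmDiff x.1.2 P) ∉ T1F) :
    ∃ z : MV, mate.Adj x z ∧ md z.1 y.1 + 1 = md x.1 y.1 := by
  refine ⟨⟨(x.1.1, symmDiff x.1.2 P), even_symm _ _ x.2.1 (by rw [hP]; decide), h0, h1⟩, ?_, ?_⟩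
  · change md _ _ = 1
    simp [md, hP]
  · unfold md
    have e : symmDiff (symmDiff x.1.2 P) y.1.2 = symmDiff x.1.2 y.1.2 \ P := by
      rw [symmDiff_right_comm, ← symmDiff_of_ge hPD, symmDiff_comm]
    simp only [e]
    have h2 := card_sdiff_add_card_eq_card hPD
    have h3 := even_symm _ _ x.2.1 y.2.1
    rw [Nat.even_iff] at h3
    omega

theorem pair_diff (a : Finset (Fin 12)) (i j k : Fin 12) (hij : i ≠ j) (hik : i ≠ k)
    (hjk : j ≠ k) : (symmDiff (symmDiff a {i, j}) (symmDiff a {i, k})).card = 2 := by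
  rw [symmDiff_symmDiff_symmDiff_comm, symmDiff_self, bot_symmDiff]
  have h := card_symm_add ({i, j} : Finset (Fin 12)) {i, k}
  have h1 : ({i, j} : Finset (Fin 12)) ∩ {i, k} = {i} := by
    ext l
    simp only [mem_inter, mem_insert, mem_singleton]
    constructor
    · rintro ⟨h1 | h1, h2 | h2⟩
      · exact h1
      · exact h1
      · exact h2
      · exact absurd (h1.symm.trans h2) hjk
    · rintro rfl
      simp
  rw [h1, card_pair hij, card_pair hik, card_singleton] at h
  omega

theorem symm_symm_right (a b : Finset (Fin 12)) : symmDiff a (symmDiff a b) = b := by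
  rw [symmDiff_symmDiff_cancel_left]

theorem mate_step (x y : MV) (hxy : x ≠ y) :
    ∃ z : MV, mate.Adj x z ∧ md z.1 y.1 + 1 = md x.1 y.1 := by
  have he := even_symm _ _ x.2.1 y.2.1
  rcases Nat.lt_or_ge (symmDiff x.1.2 y.1.2).card 3 with hlt | hge
  · have h3 : (symmDiff x.1.2 y.1.2).card = 0 ∨ (symmDiff x.1.2 y.1.2).card = 2 := by
      rw [Nat.even_iff] at he
      omega
    rcases h3 with h3 | h3
    · -- same word
      have h4 : x.1.2 = y.1.2 := by
        rw [card_eq_zero] at h3
        exact symmDiff_eq_bot.1 h3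
      have h5 : x.1.1 ≠ y.1.1 := by
        intro h5
        exact hxy (Subtype.ext (Prod.ext h5 h4))
      refine ⟨y, ?_, ?_⟩
      · change md _ _ = 1
        simp [md, h5, h4]
      · simp [md, h5, h4]
    · by_cases h5 : x.1.1 = y.1.1
      · refine ⟨y, ?_, ?_⟩
        · change md _ _ = 1
          simp [md, h5, h3]
        · simp [md, h5, h3]
      · by_cases hz : (y.1.1, x.1.2) ∈ T1F
        · have hz' : (x.1.1, y.1.2) ∉ T1F := by
            intro h6
            have := hP1 _ hz _ h6
            exact this h3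
          refine ⟨⟨(x.1.1, y.1.2), y.2.1, y.2.2.1, hz'⟩, ?_, ?_⟩
          · change md _ _ = 1
            simp [md, h3]
          · simp [md, h5, h3]
        · refine ⟨⟨(y.1.1, x.1.2), x.2.1, x.2.2.1, hz⟩, ?_, ?_⟩
          · change md _ _ = 1
            simp [md, h5]
          · simp [md, h5, h3]
  · obtain ⟨S, hS, hS3⟩ := exists_subset_card_eq hge
    rw [card_eq_three] at hS3
    obtain ⟨i, j, k, hij, hik, hjk, rfl⟩ := hS3
    have hi := hS (show i ∈ ({i, j, k} : Finset (Fin 12)) by simp)
    have hj := hS (show j ∈ ({i, j, k} : Finset (Fin 12)) by simp)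
    have hk := hS (show k ∈ ({i, j, k} : Finset (Fin 12)) by simp)
    have sub : ∀ {a b : Fin 12}, a ∈ symmDiff x.1.2 y.1.2 → b ∈ symmDiff x.1.2 y.1.2 →
        ({a, b} : Finset (Fin 12)) ⊆ symmDiff x.1.2 y.1.2 := by
      intro a b ha hb l hl
      rw [mem_insert, mem_singleton] at hl
      rcases hl with rfl | rfl
      · exact ha
      · exact hb
    by_contra hcon
    have hbad : ∀ {a b : Fin 12}, a ≠ b → a ∈ symmDiff x.1.2 y.1.2 → b ∈ symmDiff x.1.2 y.1.2 →
        symmDiff x.1.2 {a, b} ∈ T0F ∨ (x.1.1, symmDiff x.1.2 {a, b}) ∈ T1F := by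
      intro a b hab ha hb
      by_contra h
      rw [not_or] at h
      exact hcon (step_pair x y {a, b} (card_pair hab) (sub ha hb) h.1 h.2)
    have d1 := pair_diff x.1.2 i j k hij hik hjk
    have d2 := pair_diff x.1.2 j i k hij.symm hjk hik
    have d3 := pair_diff x.1.2 k i j hik.symm hjk.symm hij
    rw [pair_comm j i] at d2
    rw [pair_comm k i, pair_comm k j] at d3
    rcases hbad hij hi hj with h1 | h1 <;> rcases hbad hik hi hk with h2 | h2 <;>
      rcases hbad hjk hj hk with h3 | h3
    · exact hP0 _ h1 _ h2 d1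
    · exact hP0 _ h1 _ h2 d1
    · exact hP0 _ h1 _ h3 d2
    · exact hP1 _ h2 _ h3 d3
    · exact hP0 _ h2 _ h3 d3
    · exact hP1 _ h1 _ h3 d2
    · exact hP1 _ h1 _ h2 d1
    · exact hP1 _ h1 _ h2 d1

theorem mate_dist (x y : MV) : mate.Reachable x y ∧ mate.dist x y = md x.1 y.1 := by
  refine dist_of mate (fun x y => md x.1 y.1) ?_ ?_ ?_ mate_step x y
  · intro x y h
    have he := even_symm _ _ x.2.1 y.2.1
    rw [Nat.even_iff] at he
    simp only [md] at h
    have h1 : x.1.1 = y.1.1 := by
      by_contra h1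
      rw [if_neg h1] at h
      omega
    have h2 : (symmDiff x.1.2 y.1.2).card = 0 := by omega
    rw [card_eq_zero] at h2
    exact Subtype.ext (Prod.ext h1 (symmDiff_eq_bot.1 h2))
  · intro x
    simp [md]
  · intro x z y h
    have h1 := md_triangle x y z
    change md _ _ = 1 at h
    change md _ _ ≤ md _ _ + 1
    omega

end Mate

section MateSums

/-- sign of a coordinate -/
def sg (v : Finset (Fin 12)) (i : Fin 12) : ℤ := if i ∈ v then -1 else 1

theorem T0_even : ∀ v ∈ T0F, Even v.card := by
  have : ∀ m ∈ T0, Even (dec m).card := by decide +kernel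
  intro a ha
  unfold T0F at ha
  rw [List.mem_toFinset, List.mem_map] at ha
  obtain ⟨m, hm, rfl⟩ := ha
  exact this m hm

theorem T1_even : ∀ p ∈ T1F, Even p.2.card := by
  have : ∀ m ∈ T1, Even (dec m.2).card := by decide +kernel
  intro a ha
  unfold T1F at ha
  rw [List.mem_toFinset, List.mem_map] at ha
  obtain ⟨m, hm, rfl⟩ := ha
  exact this m hm

theorem T_disj : ∀ p ∈ T1F, p.2 ∉ T0F := by
  have : ∀ m ∈ T1, ∀ n ∈ T0, (symmDiff (dec m.2) (dec n)).card ≠ 0 := by decide +kernel
  intro a ha h
  unfold T1F at ha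
  unfold T0F at h
  rw [List.mem_toFinset, List.mem_map] at ha h
  obtain ⟨m, hm, rfl⟩ := ha
  obtain ⟨n, hn, e⟩ := h
  apply this m hm n hn
  rw [e]
  simp

theorem T0_nodup : (T0.map dec).Nodup := by
  have h1 : T0.Nodup := by decide
  refine h1.map_on ?_
  have : ∀ m ∈ T0, ∀ n ∈ T0, dec m = dec n → m = n := by decide +kernel
  intro m hm n hn h
  exact this m hm n hn h

theorem T1_nodup : (T1.map (fun p => (p.1, dec p.2))).Nodup := by
  have h1 : T1.Nodup := by decide
  refine h1.map_on ?_
  have : ∀ m ∈ T1, ∀ n ∈ T1, dec m.2 = dec n.2 → m.2 = n.2 := by decide +kernel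
  intro m hm n hn h
  rw [Prod.mk.injEq] at h
  exact Prod.ext h.1 (this m hm n hn h.2)

theorem sum_MV (f : Fin 4 × Finset (Fin 12) → ℤ) :
    ∑ x : MV, f x.1 = ∑ c : Fin 4, ∑ v : Finset (Fin 12), (if Even v.card then f (c, v) else 0) -
      ∑ c : Fin 4, (T0.map (fun n => f (c, dec n))).sum -
      (T1.map (fun p => f (p.1, dec p.2))).sum := by
  have h1 : ∑ x : MV, f x.1 = ∑ p ∈ univ.filter (fun p : Fin 4 × Finset (Fin 12) =>
      Even p.2.card ∧ p.2 ∉ T0F ∧ p ∉ T1F), f p := by
    rw [Finset.sum_subtype (p := fun p : Fin 4 × Finset (Fin 12) =>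
      Even p.2.card ∧ p.2 ∉ T0F ∧ p ∉ T1F)]
    intro x
    simp
  have h2 : ∑ p ∈ univ ×ˢ T0F, f p = ∑ c : Fin 4, (T0.map (fun n => f (c, dec n))).sum := by
    rw [sum_product]
    apply sum_congr rfl
    intro c _
    unfold T0F
    rw [List.sum_toFinset _ T0_nodup, List.map_map]
    rfl
  have h3 : ∑ p ∈ T1F, f p = (T1.map (fun p => f (p.1, dec p.2))).sum := by
    unfold T1F
    rw [List.sum_toFinset _ T1_nodup, List.map_map]
    rfl
  have h4 : ∑ p ∈ univ.filter (fun p : Fin 4 × Finset (Fin 12) => Even p.2.card), f p =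
      ∑ c : Fin 4, ∑ v : Finset (Fin 12), (if Even v.card then f (c, v) else 0) := by
    rw [sum_filter, Fintype.sum_prod_type]
  have h5 : univ.filter (fun p : Fin 4 × Finset (Fin 12) => Even p.2.card) =
      (univ.filter (fun p : Fin 4 × Finset (Fin 12) =>
        Even p.2.card ∧ p.2 ∉ T0F ∧ p ∉ T1F)) ∪ ((univ ×ˢ T0F) ∪ T1F) := by
    ext p
    simp only [mem_filter, mem_univ, true_and, mem_union, mem_product]
    constructor
    · intro h
      tauto
    · rintro (h | h | h)
      · exact h.1
      · exact T0_even _ h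
      · exact T1_even _ h
  have h6 : Disjoint ((univ : Finset (Fin 4)) ×ˢ T0F) T1F := by
    rw [disjoint_left]
    intro p hp hq
    rw [mem_product] at hp
    exact T_disj p hq hp.2
  have h7 : Disjoint (univ.filter (fun p : Fin 4 × Finset (Fin 12) =>
        Even p.2.card ∧ p.2 ∉ T0F ∧ p ∉ T1F)) ((univ ×ˢ T0F) ∪ T1F) := by
    rw [disjoint_left]
    intro p hp hq
    simp only [mem_filter, mem_univ, true_and, mem_union, mem_product] at hp hq
    rcases hq with hq | hq
    · exact hp.2.1 hq
    · exact hp.2.2 hq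
  rw [h1, ← h2, ← h3, ← h4, h5, sum_union h7, sum_union h6]
  ring

theorem even_count : ∑ v : Finset (Fin 12), (if Even v.card then (1 : ℤ) else 0) = 2048 := by
  have h1 : ∑ v : Finset (Fin 12), (-1 : ℤ) ^ v.card = 0 := by
    have := Finset.sum_powerset_neg_one_pow_card (x := (univ : Finset (Fin 12)))
    rw [powerset_univ] at this
    rw [this, if_neg]
    exact univ_nonempty.ne_empty
  have h2 : ∑ v : Finset (Fin 12), (1 : ℤ) = 4096 := by
    rw [sum_const, card_univ, Fintype.card_finset, Fintype.card_fin]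
    norm_num
  have h3 : 2 * ∑ v : Finset (Fin 12), (if Even v.card then (1 : ℤ) else 0) =
      ∑ v : Finset (Fin 12), (1 : ℤ) + ∑ v : Finset (Fin 12), (-1 : ℤ) ^ v.card := by
    rw [mul_sum, ← sum_add_distrib]
    apply sum_congr rfl
    intro v _
    split_ifs with h
    · rw [h.neg_one_pow]
      norm_num
    · rw [(Nat.not_even_iff_odd.1 h).neg_one_pow]
      norm_num
  rw [h1, h2] at h3
  linarith

theorem sum_flip (f : Finset (Fin 12) → ℤ) (P : Finset (Fin 12)) (hP : P.card = 2)
    (hf : ∀ v, f (symmDiff v P) = - f v) :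
    ∑ v : Finset (Fin 12), (if Even v.card then f v else 0) = 0 := by
  have h1 : ∑ v : Finset (Fin 12), (if Even v.card then f v else 0) =
      ∑ v : Finset (Fin 12), (if Even (symmDiff v P).card then f (symmDiff v P) else 0) := by
    symm
    apply Function.Bijective.sum_comp (g := fun v => if Even v.card then f v else 0)
      (e := fun v => symmDiff v P)
    apply Function.Involutive.bijective
    intro v
    exact symmDiff_symmDiff_cancel_right _ _
  have h2 : ∀ v : Finset (Fin 12), (if Even (symmDiff v P).card then f (symmDiff v P) else 0) =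
      - (if Even v.card then f v else 0) := by
    intro v
    have h3 : Even (symmDiff v P).card ↔ Even v.card := by
      have := card_symm_add v P
      rw [hP] at this
      rw [Nat.even_iff, Nat.even_iff]
      omega
    rw [hf]
    by_cases h : Even v.card
    · rw [if_pos (h3.2 h), if_pos h]
    · rw [if_neg (fun h' => h (h3.1 h')), if_neg h, neg_zero]
  simp only [h2, sum_neg_distrib] at h1
  linarith

theorem sg_flip (v : Finset (Fin 12)) (P : Finset (Fin 12)) (i : Fin 12) :
    sg (symmDiff v P) i = if i ∈ P then - sg v i else sg v i := by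
  unfold sg
  by_cases h1 : i ∈ v <;> by_cases h2 : i ∈ P <;> simp [mem_symmDiff, h1, h2]

theorem E_single (i : Fin 12) :
    ∑ v : Finset (Fin 12), (if Even v.card then sg v i else 0) = 0 := by
  obtain ⟨k, hk⟩ : ∃ k : Fin 12, k ≠ i := exists_ne i
  apply sum_flip _ {i, k} (card_pair hk.symm)
  intro v
  rw [sg_flip, if_pos (by simp)]

theorem E_pair (i j : Fin 12) (hij : i ≠ j) :
    ∑ v : Finset (Fin 12), (if Even v.card then sg v i * sg v j else 0) = 0 := by
  obtain ⟨k, hk1, hk2⟩ : ∃ k : Fin 12, k ≠ i ∧ k ≠ j := by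
    revert i j
    decide
  apply sum_flip _ {i, k} (card_pair hk1.symm)
  intro v
  rw [sg_flip, sg_flip, if_pos (by simp), if_neg (by simp [hij.symm, hk2.symm])]
  ring

theorem MV_count (c : Fin 4) : ∑ x : MV, (if x.1.1 = c then (1 : ℤ) else 0) = 2002 := by
  rw [sum_MV (fun p => if p.1 = c then (1 : ℤ) else 0)]
  have h1 : ∑ d : Fin 4, ∑ v : Finset (Fin 12),
      (if Even v.card then (if (d, v).1 = c then (1 : ℤ) else 0) else 0) = 2048 := by
    rw [sum_eq_single c]
    · simp only [if_true]
      exact even_count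
    · intro d _ hd
      simp [hd]
    · simp
  have h2 : ∀ c : Fin 4, ∑ d : Fin 4,
      (T0.map (fun n => if (d, dec n).1 = c then (1 : ℤ) else 0)).sum = 40 := by
    decide +kernel
  have h3 : ∀ c : Fin 4,
      (T1.map (fun p => if (p.1, dec p.2).1 = c then (1 : ℤ) else 0)).sum = 6 := by
    decide +kernel
  rw [h1, h2, h3]
  norm_num

theorem MV_single (c : Fin 4) (i : Fin 12) :
    ∑ x : MV, (if x.1.1 = c then sg x.1.2 i else 0) = 0 := by
  rw [sum_MV (fun p => if p.1 = c then sg p.2 i else 0)]
  have h1 : ∑ d : Fin 4, ∑ v : Finset (Fin 12),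
      (if Even v.card then (if (d, v).1 = c then sg (d, v).2 i else 0) else 0) = 0 := by
    rw [sum_eq_single c]
    · simp only [if_true]
      exact E_single i
    · intro d _ hd
      simp [hd]
    · simp
  have h2 : ∀ (c : Fin 4) (i : Fin 12), ∑ d : Fin 4,
      (T0.map (fun n => if (d, dec n).1 = c then sg (d, dec n).2 i else 0)).sum = 0 := by
    decide +kernel
  have h3 : ∀ (c : Fin 4) (i : Fin 12),
      (T1.map (fun p => if (p.1, dec p.2).1 = c then sg (p.1, dec p.2).2 i else 0)).sum = 0 := by
    decide +kernel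
  rw [h1, h2, h3]
  norm_num

theorem MV_pair (i j : Fin 12) (hij : i ≠ j) :
    ∑ x : MV, sg x.1.2 i * sg x.1.2 j = 0 := by
  rw [sum_MV (fun p => sg p.2 i * sg p.2 j)]
  have h1 : ∑ d : Fin 4, ∑ v : Finset (Fin 12),
      (if Even v.card then sg (d, v).2 i * sg (d, v).2 j else 0) = 0 := by
    apply sum_eq_zero
    intro d _
    exact E_pair i j hij
  have h2 : ∀ (i j : Fin 12), i ≠ j →
      (T0.map (fun n => sg (dec n) i * sg (dec n) j)).sum = 0 := by
    decide +kernel
  have h3 : ∀ (i j : Fin 12), i ≠ j →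
      (T1.map (fun p => sg (dec p.2) i * sg (dec p.2) j)).sum = 0 := by
    decide +kernel
  rw [h1, h3 i j hij, sum_eq_zero]
  · norm_num
  · intro c _
    exact h2 i j hij

end MateSums

section MateSpectrum

theorem card_MV : Fintype.card MV = 8008 := by
  have h : (Fintype.card MV : ℤ) = 8008 := by
    have h1 : (Fintype.card MV : ℤ) = ∑ x : MV, ∑ c : Fin 4, (if x.1.1 = c then (1 : ℤ) else 0) := by
      simp
    rw [h1, sum_comm]
    simp only [MV_count]
    norm_num
  exact_mod_cast h

/-- left factor -/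
def MB : Matrix MV (Fin 4 ⊕ Fin 12) ℝ := fun x s =>
  match s with
  | Sum.inl c => if x.1.1 = c then 1 else 0
  | Sum.inr i => (sg x.1.2 i : ℝ)

/-- right factor -/
noncomputable def MC : Matrix (Fin 4 ⊕ Fin 12) MV ℝ := fun s y =>
  match s with
  | Sum.inl c => 4 - (if y.1.1 = c then 1 else 0)
  | Sum.inr i => - (1 / 4) * (sg y.1.2 i : ℝ)

theorem sum_sg (v w : Finset (Fin 12)) :
    ∑ i, sg v i * sg w i = 12 - 2 * ((symmDiff v w).card : ℤ) := by
  have h : ∀ i, sg v i * sg w i = 1 - 2 * (if i ∈ symmDiff v w then 1 else 0) := by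
    intro i
    unfold sg
    by_cases h1 : i ∈ v <;> by_cases h2 : i ∈ w <;> simp [mem_symmDiff, h1, h2]
  simp only [h]
  rw [sum_sub_distrib, ← mul_sum]
  simp

theorem mate_BC : distMatrix mate = MB * MC := by
  ext x y
  rw [Matrix.mul_apply, Fintype.sum_sum_type]
  simp only [distMatrix, (mate_dist x y).2, MB, MC]
  have h1 : ∑ c : Fin 4, (if x.1.1 = c then (1 : ℝ) else 0) * (4 - (if y.1.1 = c then 1 else 0)) =
      3 + (if x.1.1 = y.1.1 then 0 else 1) := by
    rw [sum_eq_single x.1.1]
    · simp only [if_true, one_mul]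
      by_cases h : x.1.1 = y.1.1
      · rw [if_pos h.symm, if_pos h]
        norm_num
      · rw [if_neg (Ne.symm h), if_neg h]
        norm_num
    · intro c _ hc
      rw [if_neg hc.symm, zero_mul]
    · intro h
      exact absurd (mem_univ _) h
  have h2 : ∑ i : Fin 12, (sg x.1.2 i : ℝ) * (- (1 / 4) * (sg y.1.2 i : ℝ)) =
      - (1 / 4) * ((12 - 2 * ((symmDiff x.1.2 y.1.2).card : ℤ) : ℤ) : ℝ) := by
    rw [← sum_sg, Int.cast_sum, mul_sum]
    apply sum_congr rfl
    intro i _
    push_cast
    ring
  rw [h1, h2]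
  obtain ⟨m, hm⟩ := even_symm _ _ x.2.1 y.2.1
  unfold md
  rw [hm]
  have : (m + m) / 2 = m := by omega
  rw [this]
  push_cast
  ring

theorem cast_count (c : Fin 4) : ∑ x : MV, (if x.1.1 = c then (1 : ℝ) else 0) = 2002 := by
  have := congrArg (Int.cast : ℤ → ℝ) (MV_count c)
  push_cast at this
  exact this

theorem cast_single (c : Fin 4) (i : Fin 12) :
    ∑ x : MV, (if x.1.1 = c then (sg x.1.2 i : ℝ) else 0) = 0 := by
  have := congrArg (Int.cast : ℤ → ℝ) (MV_single c i)
  push_cast at this
  exact this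

theorem cast_pair (i j : Fin 12) (hij : i ≠ j) :
    ∑ x : MV, (sg x.1.2 i : ℝ) * (sg x.1.2 j : ℝ) = 0 := by
  have := congrArg (Int.cast : ℤ → ℝ) (MV_pair i j hij)
  push_cast at this
  exact this

theorem cast_all (i : Fin 12) : ∑ x : MV, (sg x.1.2 i : ℝ) = 0 := by
  have h1 : ∑ x : MV, (sg x.1.2 i : ℝ) =
      ∑ x : MV, ∑ c : Fin 4, (if x.1.1 = c then (sg x.1.2 i : ℝ) else 0) := by
    apply sum_congr rfl
    intro x _
    rw [sum_ite_eq, if_pos (mem_univ _)]
  rw [h1, sum_comm]
  simp only [cast_single, sum_const_zero]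

theorem cast_sq (i : Fin 12) : ∑ x : MV, (sg x.1.2 i : ℝ) * (sg x.1.2 i : ℝ) = 8008 := by
  have h1 : ∀ x : MV, (sg x.1.2 i : ℝ) * (sg x.1.2 i : ℝ) = 1 := by
    intro x
    unfold sg
    split_ifs <;> norm_num
  simp only [h1, sum_const, card_univ, card_MV]
  norm_num

theorem cast_two (c d : Fin 4) :
    ∑ x : MV, (4 - (if x.1.1 = c then (1 : ℝ) else 0)) * (if x.1.1 = d then 1 else 0) =
      8008 - (if c = d then 2002 else 0) := by
  have h1 : ∀ x : MV, (4 - (if x.1.1 = c then (1 : ℝ) else 0)) * (if x.1.1 = d then 1 else 0) =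
      4 * (if x.1.1 = d then 1 else 0) - (if c = d then (if x.1.1 = d then 1 else 0) else 0) := by
    intro x
    by_cases h2 : x.1.1 = d
    · by_cases h3 : c = d
      · simp [h2, h3]
      · have h4 : ¬ x.1.1 = c := by
          rw [h2]
          exact fun h => h3 h.symm
        simp [h2, h3]
        intro h
        exact absurd h.symm h3
    · simp [h2]
  simp only [h1, sum_sub_distrib, ← mul_sum, cast_count]
  by_cases h3 : c = d
  · simp only [h3, if_true, cast_count]
    norm_num
  · simp only [h3, if_false, sum_const_zero]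
    norm_num

/-- rank-one factor -/
def Mu : Fin 4 ⊕ Fin 12 → ℝ := Sum.elim (fun _ => 8008) (fun _ => 0)

/-- rank-one factor -/
def Mw : Fin 4 ⊕ Fin 12 → ℝ := Sum.elim (fun _ => 1) (fun _ => 0)

theorem mate_CB : MC * MB = vecMulVec Mu Mw - scalar (Fin 4 ⊕ Fin 12) 2002 := by
  ext s t
  rw [Matrix.mul_apply]
  simp only [Matrix.sub_apply, vecMulVec_apply, scalar_apply, diagonal_apply]
  rcases s with c | i <;> rcases t with d | j
  · simp only [MC, MB, Mu, Mw, Sum.elim_inl, Sum.inl.injEq]
    rw [cast_two]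
    norm_num
  · simp only [MC, MB, Mu, Mw, Sum.elim_inl, Sum.elim_inr, reduceCtorEq, if_false]
    have h1 : ∀ x : MV, (4 - (if x.1.1 = c then (1 : ℝ) else 0)) * (sg x.1.2 j : ℝ) =
        4 * (sg x.1.2 j : ℝ) - (if x.1.1 = c then (sg x.1.2 j : ℝ) else 0) := by
      intro x
      split_ifs <;> ring
    simp only [h1, sum_sub_distrib, ← mul_sum, cast_all, cast_single]
    norm_num
  · simp only [MC, MB, Mu, Mw, Sum.elim_inl, Sum.elim_inr, reduceCtorEq, if_false]
    have h1 : ∀ x : MV, - (1 / 4) * (sg x.1.2 i : ℝ) * (if x.1.1 = d then (1 : ℝ) else 0) =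
        - (1 / 4) * (if x.1.1 = d then (sg x.1.2 i : ℝ) else 0) := by
      intro x
      split_ifs <;> ring
    simp only [h1, ← mul_sum, cast_single]
    norm_num
  · simp only [MC, MB, Mu, Mw, Sum.elim_inr, Sum.inr.injEq]
    have h1 : ∀ x : MV, - (1 / 4) * (sg x.1.2 i : ℝ) * (sg x.1.2 j : ℝ) =
        - (1 / 4) * ((sg x.1.2 i : ℝ) * (sg x.1.2 j : ℝ)) := by
      intro x
      ring
    simp only [h1, ← mul_sum]
    by_cases hij : i = j
    · subst hij
      rw [cast_sq, if_pos rfl]
      norm_num
    · rw [cast_pair i j hij, if_neg hij]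
      norm_num

theorem mate_charpoly :
    Polynomial.X ^ 16 * (distMatrix mate).charpoly = Polynomial.X ^ (Nat.choose 16 6) *
      ((Polynomial.X ^ 16 - (32032 : ℝ) • Polynomial.X ^ (16 - 1) : Polynomial ℝ).comp
        (Polynomial.X + Polynomial.C 2002)) := by
  rw [mate_BC]
  refine charpoly_factor MB MC _ _ 2002 32032 16 (Nat.choose 16 6) mate_CB ?_ ?_ ?_
  · simp [dotProduct, Mu, Mw]
    norm_num
  · simp
  · rw [card_MV]
    decide

theorem charpoly_eq : (distMatrix mate).charpoly = (distMatrix (johnson 16 6)).charpoly := by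
  have h := mate_charpoly.trans johnson_charpoly.symm
  exact mul_left_cancel₀ (pow_ne_zero _ Polynomial.X_ne_zero) h

theorem mate_connected : mate.Connected := by
  have : Nonempty MV := by
    have : 0 < Fintype.card MV := by
      rw [card_MV]
      norm_num
    exact Fintype.card_pos_iff.1 this
  exact ⟨fun x y => (mate_dist x y).1⟩

theorem mate_not_drg : ¬ IsDistanceRegular mate := by
  rintro ⟨-, b, c, h⟩
  -- a pair of vertices at distance two with at most two common neighbours
  have m1 : Even (dec 5).card ∧ dec 5 ∉ T0F ∧ ((0 : Fin 4), dec 5) ∉ T1F := by decide +kernel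
  have m2 : Even (dec 6).card ∧ dec 6 ∉ T0F ∧ ((1 : Fin 4), dec 6) ∉ T1F := by decide +kernel
  have m3 : Even (dec 10).card ∧ dec 10 ∉ T0F ∧ ((0 : Fin 4), dec 10) ∉ T1F := by decide +kernel
  have m4 : Even (dec 6).card ∧ dec 6 ∉ T0F ∧ ((0 : Fin 4), dec 6) ∉ T1F := by decide +kernel
  have m5 : Even (dec 12).card ∧ dec 12 ∉ T0F ∧ ((0 : Fin 4), dec 12) ∉ T1F := by decide +kernel
  have m6 : Even (dec 9).card ∧ dec 9 ∉ T0F ∧ ((0 : Fin 4), dec 9) ∉ T1F := by decide +kernel
  let x : MV := ⟨(0, dec 5), m1⟩
  let y : MV := ⟨(1, dec 6), m2⟩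
  let w : MV := ⟨(0, dec 10), m3⟩
  have hxy : mate.dist x y = 2 := by
    rw [(mate_dist x y).2]
    change md (0, dec 5) (1, dec 6) = 2
    decide +kernel
  have hxw : mate.dist x w = 2 := by
    rw [(mate_dist x w).2]
    change md (0, dec 5) (0, dec 10) = 2
    decide +kernel
  have h1 := (h x y).1
  have h2 := (h x w).1
  rw [hxy] at h1
  rw [hxw] at h2
  simp only [(mate_dist _ _).2] at h1 h2
  have le : {z : MV | mate.Adj y z ∧ md x.1 z.1 + 1 = 2}.ncard ≤ 2 := by
    have hsub : Subtype.val '' {z : MV | mate.Adj y z ∧ md x.1 z.1 + 1 = 2} ⊆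
        (({((0 : Fin 4), dec 6), ((1 : Fin 4), dec 5)} : Finset (Fin 4 × Finset (Fin 12))) :
          Set (Fin 4 × Finset (Fin 12))) := by
      rintro _ ⟨⟨⟨c', v⟩, hz⟩, ⟨ha, hd⟩, rfl⟩
      change md ((1 : Fin 4), dec 6) (c', v) = 1 at ha
      change md ((0 : Fin 4), dec 5) (c', v) + 1 = 2 at hd
      have he1 := even_symm (dec 6) v (by decide +kernel) hz.1
      have he2 := even_symm (dec 5) v (by decide +kernel) hz.1
      rw [Nat.even_iff] at he1 he2
      simp only [md] at ha hd
      by_cases h0 : (0 : Fin 4) = c'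
      · -- then v = dec 6
        subst h0
        have : (symmDiff (dec 6) v).card = 0 := by
          rw [if_neg (by decide)] at ha
          omega
        rw [card_eq_zero] at this
        have := symmDiff_eq_bot.1 this
        simp [this]
      · rw [if_neg h0] at hd
        have : (symmDiff (dec 5) v).card = 0 := by omega
        rw [card_eq_zero] at this
        have h5 := symmDiff_eq_bot.1 this
        have h6 : (1 : Fin 4) = c' := by
          by_contra h6
          rw [if_neg h6, ← h5] at ha
          revert ha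
          decide +kernel
        simp [← h5, ← h6]
    rw [← Set.ncard_image_of_injective _ Subtype.val_injective]
    refine (Set.ncard_le_ncard hsub (Finset.finite_toSet _)).trans ?_
    rw [Set.ncard_coe_finset]
    exact card_le_two
  have ge : 3 ≤ {z : MV | mate.Adj w z ∧ md x.1 z.1 + 1 = 2}.ncard := by
    let a1 : MV := ⟨(0, dec 6), m4⟩
    let a2 : MV := ⟨(0, dec 12), m5⟩
    let a3 : MV := ⟨(0, dec 9), m6⟩
    have hsub : (({a1, a2, a3} : Finset MV) : Set MV) ⊆
        {z : MV | mate.Adj w z ∧ md x.1 z.1 + 1 = 2} := by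
      intro z hz
      simp only [coe_insert, coe_singleton, Set.mem_insert_iff, Set.mem_singleton_iff] at hz
      rcases hz with rfl | rfl | rfl
      · constructor
        · change md (0, dec 10) (0, dec 6) = 1
          decide +kernel
        · change md (0, dec 5) (0, dec 6) + 1 = 2
          decide +kernel
      · constructor
        · change md (0, dec 10) (0, dec 12) = 1
          decide +kernel
        · change md (0, dec 5) (0, dec 12) + 1 = 2
          decide +kernel
      · constructor
        · change md (0, dec 10) (0, dec 9) = 1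
          decide +kernel
        · change md (0, dec 5) (0, dec 9) + 1 = 2
          decide +kernel
    have hcard : ({a1, a2, a3} : Finset MV).card = 3 := by
      rw [card_eq_three]
      refine ⟨a1, a2, a3, ?_, ?_, ?_, rfl⟩
      · intro he
        have h7 : dec 6 = dec 12 := congrArg (fun z : MV => z.1.2) he
        have h8 : dec 6 ≠ dec 12 := by decide +kernel
        exact h8 h7
      · intro he
        have h7 : dec 6 = dec 9 := congrArg (fun z : MV => z.1.2) he
        have h8 : dec 6 ≠ dec 9 := by decide +kernel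
        exact h8 h7
      · intro he
        have h7 : dec 12 = dec 9 := congrArg (fun z : MV => z.1.2) he
        have h8 : dec 12 ≠ dec 9 := by decide +kernel
        exact h8 h7
    rw [← hcard, ← Set.ncard_coe_finset]
    exact Set.ncard_le_ncard hsub (Set.toFinite _)
  omega

end MateSpectrum

/-- The Johnson graph `J(16, 6)` is distance-regular, and there is a connected graph which is not
distance-regular but has the same distance spectrum. -/
theorem result :
    IsDistanceRegular (johnson 16 6) ∧
    ∃ (V : Type) (_ : Fintype V) (_ : DecidableEq V) (G : SimpleGraph V),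
      G.Connected ∧ ¬ IsDistanceRegular G ∧ distSpectrum G = distSpectrum (johnson 16 6) :=
  ⟨johnson_isDistanceRegular (by norm_num), MV, inferInstance, inferInstance, mate,
    mate_connected, mate_not_drg, distSpectrum_eq _ _ charpoly_eq⟩


end Pool.Agent.Results.MP_08245e_co.JohnsonMate
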